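import Pool.Agent.H282.AD211.PLATE

/-!
# Polynomials: preimages of points close to the non-attracted set are close to it
-/

set_option autoImplicit false

open Metric Set MeasureTheory Filter Topology Polynomial
open scoped OnePoint ENNReal

namespace Pool.Agent.H211.AD

open Pool.Agent.H792R2.CE Pool.Agent.H792R2
open P_PLATE

theorem t_PBACK : S_PBACK := by
  intro A hA P hP ε hε
  obtain ⟨δ₀, hδ₀, hlate⟩ := t_PLATE A hA P hP
  obtain ⟨T₀, hT₀⟩ := hlate ε hε
  obtain ⟨R, hR1, hesc⟩ := exists_esc hP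
  have hR : 0 < R := by linarith
  have hf : Differentiable ℂ (fun z : ℂ => P.eval z) := P.differentiable
  have hK : IsCompact (PK A P) := compact_PK hA hR hesc
  obtain ⟨R', hRR, hKR⟩ := exists_big hK 1 R
  have hL : IsCompact (closedBall (0 : ℂ) R' \ thickening ε (PK A P)) :=
    (isCompact_closedBall 0 R').diff isOpen_thickening
  have hn : ∀ n : ℕ, ∃ δ > (0 : ℝ), E (fun z => P.eval z) univ (PK A P) δ n ⊆
      cthickening ε (PK A P) := by
    intro n
    have hit : Differentiable ℂ ((fun z : ℂ => P.eval z)^[n]) := hf.iterate n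
    have hdis : Disjoint ((fun z : ℂ => P.eval z)^[n] '' (closedBall (0 : ℂ) R' \
        thickening ε (PK A P))) (PK A P) := by
      rw [Set.disjoint_left]
      rintro _ ⟨x, hx, rfl⟩ hxK
      apply hxK
      have hx1 : A (fun z : ℂ => P.eval z) x := by
        by_contra h
        exact hx.2 (self_subset_thickening hε _ h)
      exact fwd_of hA hf hx1 n
    obtain ⟨δ, hδ, hd⟩ := hdis.exists_cthickenings (hL.image hit.continuous) hK.isClosed
    refine ⟨min δ 1, lt_min hδ one_pos, fun z hz => ?_⟩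
    by_contra hcon
    have hz2 : (fun z : ℂ => P.eval z)^[n] z ∈ cthickening (min δ 1) (PK A P) := hz.2
    have hnot : z ∉ thickening ε (PK A P) := fun h =>
      hcon (thickening_subset_cthickening ε _ h)
    by_cases hzR : ‖z‖ ≤ R'
    · exact Set.disjoint_left.1 hd (self_subset_cthickening _
        (mem_image_of_mem _ ⟨mem_closedBall_zero_iff.2 hzR, hnot⟩))
        (cthickening_mono (min_le_left _ _) _ hz2)
    · push Not at hzR
      have h1 := grow (f := fun z : ℂ => P.eval z) hesc (z := z) (hRR.trans hzR.le) n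
      have h2 := hKR (cthickening_mono (min_le_right _ _) _ hz2)
      rw [mem_closedBall_zero_iff] at h2
      linarith
  choose δ hδ hE using hn
  have hmin : ∃ δ₁ > (0 : ℝ), ∀ n < T₀, δ₁ ≤ δ n := by
    clear hT₀
    induction T₀ with
    | zero => exact ⟨1, one_pos, fun n hn => absurd hn (Nat.not_lt_zero n)⟩
    | succ T ih =>
      obtain ⟨δ₁, h1, h2⟩ := ih
      refine ⟨min δ₁ (δ T), lt_min h1 (hδ T), fun n hn => ?_⟩
      rcases Nat.lt_succ_iff_lt_or_eq.1 hn with h | rfl
      · exact (min_le_left _ _).trans (h2 n h)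
      · exact min_le_right _ _
  obtain ⟨δ₁, hδ₁, hle⟩ := hmin
  refine ⟨min δ₁ δ₀, lt_min hδ₁ hδ₀, fun n z hz => ?_⟩
  have hz2 : (fun z : ℂ => P.eval z)^[n] z ∈ cthickening (min δ₁ δ₀) (PK A P) := hz.2
  by_cases hnT : n < T₀
  · exact hE n ⟨fun _ _ => mem_univ _, cthickening_mono ((min_le_left _ _).trans (hle n hnT)) _ hz2⟩
  · push Not at hnT
    exact hT₀ n hnT ⟨fun _ _ => mem_univ _, cthickening_mono (min_le_right _ _) _ hz2⟩

end Pool.Agent.H211.AD
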