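import Pool.Agent.H211.AD.Stm4
import Pool.Graph.R_seed8.H400R3.HI.Fatou

/-!
# Polynomials: uniform attraction near the complement of the non-attracted set
-/

set_option autoImplicit false

open Metric Set MeasureTheory Filter Topology Polynomial
open scoped OnePoint ENNReal

namespace Pool.Agent.H211.AD.P_PLATE

open Pool.Agent.H211.AD
open Pool.Agent.H792R2.CE Pool.Agent.H792R2
open Pool.Agent.H400R3.HI (sinks)

theorem exists_esc {P : ℂ[X]} (hP : 2 ≤ P.natDegree) :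
    ∃ R : ℝ, 1 ≤ R ∧ ∀ z : ℂ, R ≤ ‖z‖ → 2 * ‖z‖ ≤ ‖P.eval z‖ := by
  have hP0 : P ≠ 0 := by
    rintro rfl
    simp at hP
  obtain ⟨R, ρe, hR1, hρe, hesc⟩ := Dyn.family_escape (d := P.natDegree) hP
    (p := fun _ => P) (Dyn.PF.const P) (fun _ => le_rfl) (leadingCoeff_ne_zero.2 hP0)
  exact ⟨R, hR1, fun z hz => (hesc 0 (by simpa using hρe)).2 z hz⟩

theorem grow {f : ℂ → ℂ} {R : ℝ} (hesc : ∀ z : ℂ, R ≤ ‖z‖ → 2 * ‖z‖ ≤ ‖f z‖) {z : ℂ}
    (hz : R ≤ ‖z‖) (n : ℕ) : ‖z‖ ≤ ‖f^[n] z‖ := by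
  induction n with
  | zero => simp
  | succ n ih =>
    rw [Function.iterate_succ_apply']
    have h1 := hesc (f^[n] z) (hz.trans ih)
    have h2 := norm_nonneg (f^[n] z)
    linarith

/-- the image of a sink is a sink -/
theorem sink_fwd {f : ℂ → ℂ} (hf : Differentiable ℂ f) {z : ℂ} {p : ℕ} (hp : 0 < p)
    (hz : f^[p] z = z) (hd : ‖deriv (f^[p]) z‖ < 1) :
    f^[p] (f z) = f z ∧ ‖deriv (f^[p]) (f z)‖ < 1 := by
  obtain ⟨m, rfl⟩ : ∃ m, p = m + 1 := ⟨p - 1, by omega⟩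
  have hit : ∀ k, Differentiable ℂ (f^[k]) := fun k => hf.iterate k
  have h0 : f^[m] (f z) = z := by
    rw [← Function.iterate_succ_apply]; exact hz
  refine ⟨?_, ?_⟩
  · rw [← Function.iterate_succ_apply, Function.iterate_succ_apply', hz]
  · have h1 : deriv (f^[m + 1]) (f z) = deriv f z * deriv (f^[m]) (f z) := by
      rw [Function.iterate_succ', deriv_comp _ (hf _) ((hit m) _), h0]
    have h2 : deriv (f^[m + 1]) z = deriv (f^[m]) (f z) * deriv f z := by
      rw [Function.iterate_succ, deriv_comp _ ((hit m) _) (hf _)]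
    rw [h1, mul_comm, ← h2]
    exact hd

theorem sink_fwd_iter {f : ℂ → ℂ} (hf : Differentiable ℂ f) {z : ℂ} {p : ℕ} (hp : 0 < p)
    (hz : f^[p] z = z) (hd : ‖deriv (f^[p]) z‖ < 1) (i : ℕ) :
    f^[p] (f^[i] z) = f^[i] z ∧ ‖deriv (f^[p]) (f^[i] z)‖ < 1 := by
  induction i with
  | zero => exact ⟨hz, hd⟩
  | succ i ih =>
    rw [Function.iterate_succ_apply']
    exact sink_fwd hf hp ih.1 ih.2

/-- forward invariance of the attracted set -/
theorem attr_fwd {f : ℂ → ℂ} (hf : Differentiable ℂ f) {x : ℂ} (h : Dyn.Attr f x) :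
    Dyn.Attr f (f x) := by
  rcases h with h | ⟨p, hp, z, hz, hd, ht⟩
  · left
    rw [← tendsto_add_atTop_iff_nat 1] at h
    exact h
  · right
    obtain ⟨h1, h2⟩ := sink_fwd hf hp hz hd
    refine ⟨p, hp, f z, h1, h2, ?_⟩
    have h3 : (fun k : ℕ => f^[p * k] (f x)) = fun k : ℕ => f (f^[p * k] x) := by
      ext k
      rw [← Function.iterate_succ_apply, Function.iterate_succ_apply']
    rw [h3]
    exact (hf.continuous.tendsto _).comp ht

theorem esc_fwd {f : ℂ → ℂ} {x : ℂ} (h : Esc f x) : Esc f (f x) := by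
  unfold Esc at *
  rw [← tendsto_add_atTop_iff_nat 1] at h
  exact h

/-- near an attracting fixed point distances do not increase -/
theorem contr {g : ℂ → ℂ} {z g' : ℂ} (hg : HasDerivAt g g' z) (hz : g z = z) (h : ‖g'‖ < 1) :
    ∀ᶠ w in 𝓝 z, ‖g w - z‖ ≤ ‖w - z‖ := by
  have h1 := hg.isLittleO.def (c := 1 - ‖g'‖) (by linarith)
  filter_upwards [h1] with w hw
  rw [hz] at hw
  have h2 : ‖g w - z‖ ≤ ‖g w - z - (w - z) • g'‖ + ‖(w - z) • g'‖ := by
    have := norm_add_le (g w - z - (w - z) • g') ((w - z) • g')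
    simpa using this
  rw [norm_smul] at h2
  nlinarith [norm_nonneg (w - z)]

/-- points attracted by a sink: uniform attraction -/
theorem away_sink {f : ℂ → ℂ} (hf : Differentiable ℂ f) {K : Set ℂ} {δ : ℝ} (hδ : 0 < δ)
    (hS : ∀ s ∈ sinks f, s ∉ thickening (δ + δ) K) {x z : ℂ} {p : ℕ} (hp : 0 < p)
    (hz : f^[p] z = z) (hd : ‖deriv (f^[p]) z‖ < 1)
    (ht : Tendsto (fun k : ℕ => f^[p * k] x) atTop (𝓝 z)) :
    ∃ V ∈ 𝓝 x, ∃ N : ℕ, ∀ y ∈ V, ∀ n ≥ N, f^[n] y ∉ cthickening δ K := by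
  have hit : ∀ k, Differentiable ℂ (f^[k]) := fun k => hf.iterate k
  have h1 : ∀ᶠ w in 𝓝 z, ‖f^[p] w - z‖ ≤ ‖w - z‖ := contr ((hit p z).hasDerivAt) hz hd
  have h2 : ∀ᶠ w in 𝓝 z, ∀ i ∈ Finset.range p, f^[i] w ∈ ball (f^[i] z) δ := by
    rw [Filter.eventually_all_finset]
    intro i _
    exact ((hit i).continuous.tendsto z).eventually (ball_mem_nhds _ hδ)
  obtain ⟨r, hr, hball⟩ := Metric.mem_nhds_iff.1 (h1.and h2)
  have hmap : ∀ m : ℕ, ∀ w ∈ ball z r, f^[p * m] w ∈ ball z r := by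
    intro m
    induction m with
    | zero => intro w hw; simpa using hw
    | succ m ih =>
      intro w hw
      have h3 := ih w hw
      have h4 := (hball h3).1
      have h5 : f^[p * (m + 1)] w = f^[p] (f^[p * m] w) := by
        rw [← Function.iterate_add_apply]
        congr 2
        ring
      rw [h5, mem_ball, dist_eq_norm]
      rw [mem_ball, dist_eq_norm] at h3
      exact lt_of_le_of_lt h4 h3
  obtain ⟨k, hk⟩ := (ht.eventually (ball_mem_nhds z hr)).exists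
  refine ⟨f^[p * k] ⁻¹' ball z r, ?_, p * k, ?_⟩
  · exact ((hit (p * k)).continuous.tendsto x).eventually (isOpen_ball.mem_nhds hk)
  · intro y hy n hn hmem
    obtain ⟨m, i, hi, hni⟩ : ∃ m i : ℕ, i < p ∧ n = i + (p * m + p * k) := by
      refine ⟨(n - p * k) / p, (n - p * k) % p, Nat.mod_lt _ hp, ?_⟩
      have := Nat.div_add_mod (n - p * k) p
      omega
    have h6 : f^[n] y = f^[i] (f^[p * m] (f^[p * k] y)) := by
      rw [hni, Function.iterate_add_apply, Function.iterate_add_apply]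
    have h7 := hmap m _ hy
    have h8 := (hball h7).2 i (Finset.mem_range.2 hi)
    rw [← h6] at h8
    have h9 : f^[i] z ∈ thickening δ (cthickening δ K) := by
      rw [mem_thickening_iff]
      refine ⟨_, hmem, ?_⟩
      rw [mem_ball] at h8
      rw [dist_comm]
      exact h8
    have h10 := thickening_cthickening_subset δ hδ.le K h9
    obtain ⟨h11, h12⟩ := sink_fwd_iter hf hp hz hd i
    exact hS _ ⟨p, hp, h11, h12⟩ h10

/-- escaping points: uniform escape -/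
theorem away_esc {f : ℂ → ℂ} (hf : Differentiable ℂ f) {K : Set ℂ} {δ R R' : ℝ}
    (hesc : ∀ z : ℂ, R ≤ ‖z‖ → 2 * ‖z‖ ≤ ‖f z‖) (hRR : R ≤ R')
    (hK : cthickening δ K ⊆ closedBall 0 R') {x : ℂ} (hx : Esc f x) :
    ∃ V ∈ 𝓝 x, ∃ N : ℕ, ∀ y ∈ V, ∀ n ≥ N, f^[n] y ∉ cthickening δ K := by
  have hit : ∀ k, Differentiable ℂ (f^[k]) := fun k => hf.iterate k
  obtain ⟨N, hN⟩ := (hx.eventually (eventually_gt_atTop R')).exists
  refine ⟨{y | R' < ‖f^[N] y‖}, ?_, N, ?_⟩
  · exact (isOpen_lt continuous_const (hit N).continuous.norm).mem_nhds hN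
  · intro y hy n hn hmem
    obtain ⟨m, rfl⟩ : ∃ m, n = m + N := ⟨n - N, by omega⟩
    have h1 := hK hmem
    rw [mem_closedBall_zero_iff, Function.iterate_add_apply] at h1
    have h2 := grow hesc (z := f^[N] y) (hRR.trans (le_of_lt hy)) m
    have h3 : R' < ‖f^[N] y‖ := hy
    linarith

/-- the uniform statement from the local one -/
theorem unif {f : ℂ → ℂ} {K : Set ℂ} {δ R R' : ℝ}
    (hesc : ∀ z : ℂ, R ≤ ‖z‖ → 2 * ‖z‖ ≤ ‖f z‖) (hRR : R ≤ R')
    (hK : cthickening δ K ⊆ closedBall 0 R')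
    (hloc : ∀ x, x ∉ K → ∃ V ∈ 𝓝 x, ∃ N : ℕ, ∀ y ∈ V, ∀ n ≥ N, f^[n] y ∉ cthickening δ K)
    {ε : ℝ} (hε : 0 < ε) :
    ∃ T₀ : ℕ, ∀ n ≥ T₀, E f univ K δ n ⊆ cthickening ε K := by
  have hL : IsCompact (closedBall (0 : ℂ) R' \ thickening ε K) :=
    (isCompact_closedBall 0 R').diff isOpen_thickening
  have key : ∃ T : ℕ, ∀ x ∈ closedBall (0 : ℂ) R' \ thickening ε K, ∀ n ≥ T,
      f^[n] x ∉ cthickening δ K := by
    refine hL.induction_on (p := fun s => ∃ T : ℕ, ∀ x ∈ s, ∀ n ≥ T, f^[n] x ∉ cthickening δ K)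
      ⟨0, fun x hx => absurd hx (notMem_empty x)⟩ ?_ ?_ ?_
    · rintro s t hst ⟨T, hT⟩
      exact ⟨T, fun x hx => hT x (hst hx)⟩
    · rintro s t ⟨T, hT⟩ ⟨T', hT'⟩
      refine ⟨max T T', ?_⟩
      rintro x (hx | hx) n hn
      · exact hT x hx n (le_trans (le_max_left _ _) hn)
      · exact hT' x hx n (le_trans (le_max_right _ _) hn)
    · intro x hx
      obtain ⟨V, hV, N, hN⟩ := hloc x fun h => hx.2 (self_subset_thickening hε K h)
      exact ⟨V, mem_nhdsWithin_of_mem_nhds hV, N, hN⟩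
  obtain ⟨T, hT⟩ := key
  refine ⟨T, fun n hn z hz => ?_⟩
  by_contra hcon
  have hz2 : f^[n] z ∈ cthickening δ K := hz.2
  have hnot : z ∉ thickening ε K := fun h => hcon (thickening_subset_cthickening ε K h)
  by_cases hzR : ‖z‖ ≤ R'
  · exact hT z ⟨mem_closedBall_zero_iff.2 hzR, hnot⟩ n hn hz2
  · push Not at hzR
    have h1 := grow hesc (z := z) (hRR.trans hzR.le) n
    have h2 := hK hz2
    rw [mem_closedBall_zero_iff] at h2
    linarith

theorem pred_of {A : (ℂ → ℂ) → ℂ → Prop} (hA : A = Dyn.Attr ∨ A = Esc) :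
    Pool.Agent.X325.EP.Pred A := by
  rcases hA with rfl | rfl
  · exact Pool.Agent.X325.EP.pred_attr
  · exact Pool.Agent.X325.EP.pred_escape

theorem fwd_of {A : (ℂ → ℂ) → ℂ → Prop} (hA : A = Dyn.Attr ∨ A = Esc) {f : ℂ → ℂ}
    (hf : Differentiable ℂ f) {x : ℂ} (h : A f x) (n : ℕ) : A f (f^[n] x) := by
  induction n with
  | zero => exact h
  | succ n ih =>
    rw [Function.iterate_succ_apply']
    rcases hA with rfl | rfl
    · exact attr_fwd hf ih
    · exact esc_fwd ih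

theorem compact_PK {A : (ℂ → ℂ) → ℂ → Prop} (hA : A = Dyn.Attr ∨ A = Esc) {P : ℂ[X]} {R : ℝ}
    (hR : 0 < R) (hesc : ∀ z : ℂ, R ≤ ‖z‖ → 2 * ‖z‖ ≤ ‖P.eval z‖) : IsCompact (PK A P) := by
  have h := Pool.Agent.X325.EP.natt_compact_poly (pred_of hA) hR hesc
  rw [Pool.Agent.X325.EP.rf_one] at h
  exact h

theorem exists_big {K : Set ℂ} (hK : IsCompact K) (δ R : ℝ) :
    ∃ R' : ℝ, R ≤ R' ∧ cthickening δ K ⊆ closedBall 0 R' := by
  obtain ⟨r, hr⟩ := (hK.isBounded.cthickening (δ := δ)).subset_closedBall 0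
  exact ⟨max R r, le_max_left _ _, hr.trans (closedBall_subset_closedBall (le_max_right _ _))⟩

end Pool.Agent.H211.AD.P_PLATE

namespace Pool.Agent.H211.AD

open Pool.Agent.H792R2.CE Pool.Agent.H792R2
open P_PLATE

theorem t_PLATE : S_PLATE := by
  intro A hA P hP
  obtain ⟨R, hR1, hesc⟩ := exists_esc hP
  have hR : 0 < R := by linarith
  have hf : Differentiable ℂ (fun z : ℂ => P.eval z) := P.differentiable
  have hK : IsCompact (PK A P) := compact_PK hA hR hesc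
  rcases hA with rfl | rfl
  · have hfin : (Pool.Agent.H400R3.HI.sinks (fun z : ℂ => P.eval z)).Finite :=
      Pool.Agent.H400R3.HI.sinks_finite hP
    have hdis : Disjoint (Pool.Agent.H400R3.HI.sinks (fun z : ℂ => P.eval z)) (PK Dyn.Attr P) := by
      rw [Set.disjoint_left]
      rintro s ⟨p, hp, hs, hd⟩ hsK
      apply hsK
      refine Or.inr ⟨p, hp, s, hs, hd, ?_⟩
      have h1 : (fun k : ℕ => (fun z : ℂ => P.eval z)^[p * k] s) = fun _ => s := by
        ext k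
        rw [Function.iterate_mul]
        exact Function.iterate_fixed hs k
      rw [h1]
      exact tendsto_const_nhds
    obtain ⟨δ, hδ, hd⟩ := hdis.exists_cthickenings hfin.isCompact hK.isClosed
    obtain ⟨R', hRR, hKR⟩ := exists_big hK (δ / 2) R
    refine ⟨δ / 2, by linarith, fun ε hε => unif hesc hRR hKR ?_ hε⟩
    intro x hx
    have hx' : Dyn.Attr (fun z : ℂ => P.eval z) x := by
      by_contra h
      exact hx h
    rcases hx' with h | ⟨p, hp, z, hz, hdz, ht⟩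
    · exact away_esc hf hesc hRR hKR h
    · refine away_sink hf (by linarith) ?_ hp hz hdz ht
      intro s hs hsK
      rw [add_halves] at hsK
      exact Set.disjoint_left.1 hd (self_subset_cthickening _ hs)
        (thickening_subset_cthickening _ _ hsK)
  · obtain ⟨R', hRR, hKR⟩ := exists_big hK 1 R
    refine ⟨1, one_pos, fun ε hε => unif hesc hRR hKR ?_ hε⟩
    intro x hx
    have hx' : Esc (fun z : ℂ => P.eval z) x := by
      by_contra h
      exact hx h
    exact away_esc hf hesc hRR hKR hx'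

end Pool.Agent.H211.AD
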